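import Pool.Agent.Helper6_VLF.FIN

/-!
# VLF: the integer lift
-/

namespace Pool.Agent.VLF.H6

open Pool.Agent.ZOL Finset

theorem ext_lift (hTYP : TypStmt) :
    ∀ p k d : ℕ, p.Prime → 1 ≤ k → ∀ v : ZK →+ ZMod (p ^ k), (∀ x ∈ F (d + 1), v x = 0) →
      ∃ V : ZK →+ ℤ, (∀ x : ZK, (V x : ZMod (p ^ k)) = v x) ∧
        ∀ a : ℕ, ∀ x ∈ F (d * (p ^ (k - 1) * (1 + (p - 1) * a)) + 1),
          ((p : ℤ) ^ (k + a)) ∣ V x := by
  intro p k d hp hk v hv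
  have : NeZero (p ^ k) := ⟨pow_ne_zero k hp.ne_zero⟩
  refine ⟨ext v, ext_cast v, fun a x hx => ?_⟩
  refine hTYP p k a d hp hk v hv (ext v) (fun K => ?_) x hx
  rw [ext_single, mul_one]

end Pool.Agent.VLF.H6
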