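import Pool.Agent.VLF.Stmts

/-!
# VLF: row FIN
-/

namespace Pool.Agent.VLF.H6

open Pool.Agent.ZOL Finset

/-- The integer linear extension of the standard representative. -/
noncomputable def ext {q : ℕ} (v : ZK →+ ZMod q) : ZK →+ ℤ :=
  Finsupp.liftAddHom (fun K : Knot =>
    (AddMonoidHom.mulLeft (((v (Finsupp.single K 1)).val : ℕ) : ℤ)))

theorem ext_single {q : ℕ} (v : ZK →+ ZMod q) (K : Knot) (n : ℤ) :
    ext v (Finsupp.single K n) = (((v (Finsupp.single K 1)).val : ℕ) : ℤ) * n := by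
  simp [ext]

theorem ext_cast {q : ℕ} [NeZero q] (v : ZK →+ ZMod q) (x : ZK) :
    ((ext v x : ℤ) : ZMod q) = v x := by
  have h : ((Int.castAddHom (ZMod q)).comp (ext v)) = v := by
    refine Finsupp.addHom_ext ?_
    intro K n
    have h1 : (Finsupp.single K n : ZK) = n • Finsupp.single K 1 := by
      rw [Finsupp.smul_single, smul_eq_mul, mul_one]
    rw [AddMonoidHom.comp_apply, ext_single, h1, map_zsmul]
    simp [mul_comm]
  exact DFunLike.congr_fun h x

theorem fin (hTYP : TypStmt) (hSAT : SatStmt) (hJTF : JtfStmt) (hCRT : CrtStmt) : FinStmt := by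
  refine ⟨?_, hCRT, ?_, hJTF⟩
  · intro p k d hp hk v hv
    haveI : NeZero (p ^ k) := ⟨pow_ne_zero k hp.ne_zero⟩
    refine ⟨ext v, ext_cast v, fun a x hx => ?_⟩
    refine hTYP p k a d hp hk v hv (ext v) (fun K => ?_) x hx
    rw [ext_single, mul_one]
  · intro p k a d hp hk x y h
    exact hSAT p k a d hp hk x y h

end Pool.Agent.VLF.H6
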